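import Pool.Agent.Helper84.VI.Base
import Pool.Agent.TH466.QG.ATop

/-!
# Viehweg's inequality for varieties dominated by Kummer covers of projective space

MP_5c318e_ag, Q1, for a class of total spaces. Let `ℓ i = 0` be `q` hyperplanes in projective
`n`-space, an arbitrary arrangement, and let `X` be an abelian cover of projective `n`-space over
this arrangement whose function field contains the `N`-th roots of the ratios of the forms `ℓ i`, for
example the Kummer cover given by `y i ^ N = ℓ i (x)`. Let `N > (n + 2) (5 r - 4)` and let `W` be any
smooth projective variety which is dominated by `X` with degree at most `r`, for example a model of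
the quotient of `X` by a group of at most `r` birational automorphisms. No assumption is made on the
branch locus of `X ⇢ W`, on the singularities, or on the arrangement. The theorem says that

`κ(W) ≥ κ(F) + max (κ(Y), Var (W → Y))`

for **all** fibrations `W → Y` (also of all smooth models of `W`) onto varieties `Y` with
`κ(Y) ≥ 0`. The fibrations are not assumed to be related to the map to projective space.

The same is proved for all varieties `W` with generically finite dominant maps `V' ⇢ V` of any
degree and `V' ⇢ W` of degree at most `r`, where `V` is any variety with a generically finite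
rational map to projective `n`-space and with `N`-th roots over an arrangement which is not
reducible.

Proof. By `Pool/Agent/TH466/QG/ATop.lean` of the starting repository `W` is of general type or
uniruled. In the first case `κ(W) = dim W = dim F + dim Y`, and the variation is at most `dim Y`. In
the second case the general fibre of `W → Y` is uniruled or `Y` is, and then `κ(F) = -∞` or
`κ(Y) = -∞` (`Pool/Agent/R882/UB.lean` of the starting repository).
-/

set_option autoImplicit false

open Pool.Agent.W602.Cov Pool.Agent.W602.GT
open Pool.Agent.W619.PQ (IsUniruled)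
open Pool.Agent.Helper84.VI

namespace Pool.Agent.Results.MP_5c318e_ag.KummerImages

/-- The value of a linear form at a vector over `K`. -/
noncomputable def form {n : ℕ} {K : Type} [Field K] [Algebra ℂ K] (φ : Form n)
    (x : Fin (n + 1) → K) : K := ∑ j, algebraMap ℂ K (φ (Pi.single j 1)) * x j

/-- The ratios of the values of the linear forms `ℓ i` at `x` have `N`-th roots in `K`. -/
def Roots {n q : ℕ} (ℓ : Fin q → Form n) {K : Type} [Field K] [Algebra ℂ K]
    (x : Fin (n + 1) → K) (N : ℕ) : Prop :=
  ∀ i j, ∃ z : K, form (ℓ i) x = form (ℓ j) x * z ^ N

/-- **Viehweg's inequality for the images of Kummer covers.** Let `n ≥ 1` and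
`N > (n + 2) (5 r - 4)`.
**(1)** Let `X` be an abelian cover of projective `n`-space over an arbitrary arrangement whose
function field contains the `N`-th roots of the ratios of the forms of the arrangement, and let `W`
be any variety dominated by `X` with degree at most `r`. Viehweg's inequality holds for all
fibrations of `W`.
**(2)** The same holds for all varieties `W` with generically finite dominant rational maps
`V' ⇢ V` of any degree and `V' ⇢ W` of degree at most `r`, where `V` is any variety with a
generically finite rational map to projective `n`-space and with `N`-th roots, over an arrangement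
which is not reducible. -/
theorem result (n q N r : ℕ) (hn : 1 ≤ n) (hN : 5 * (n + 2) * r < N + 4 * (n + 2)) :
    (∀ (q' : ℕ) (X : Cover n q q'), X.Free → ∀ (K : Type) [Field K] [Algebra ℂ K]
      (x : Fin (n + 1) → K) (y : Fin q' → K), X.FunctionField K x y → Roots X.ℓ x N →
      ∀ (L : Type) [Field L] [Algebra ℂ L] [Algebra L K] [IsScalarTower ℂ L K]
        [FiniteDimensional L K], Module.finrank L K ≤ r → Viehweg L n) ∧
    (∀ ℓ : Fin q → Form n, (∀ i, ℓ i ≠ 0) → ¬ Reducible ℓ → ∀ (K : Type) [Field K] [Algebra ℂ K]
      [Algebra.EssFiniteType ℂ K] (x : Fin (n + 1) → K), x 0 ≠ 0 →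
      IsTranscendenceBasis ℂ (fun j : Fin n => x j.succ / x 0) → Roots ℓ x N →
      ∀ (K' L : Type) [Field K'] [Field L] [Algebra ℂ K'] [Algebra ℂ L] [Algebra K K']
        [Algebra L K'] [IsScalarTower ℂ K K'] [IsScalarTower ℂ L K'] [FiniteDimensional K K']
        [FiniteDimensional L K'], Module.finrank L K' ≤ r → Viehweg L n) := by
  refine ⟨fun q' X hF K _ _ x y hK h L _ _ _ _ _ hr => ?_,
    fun ℓ hℓ hred K _ _ _ x hx0 hbas h K' L _ _ _ _ _ _ _ _ _ _ hdeg => ?_⟩
  · obtain ⟨h1, h2, h3⟩ := Pool.Agent.TH152.AC.coords X hK
    have htr : Algebra.trdeg ℂ K = n := Pool.Agent.W602.GT.trdeg_of_basis h3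
    have hLtr : Algebra.trdeg ℂ L = n := Pool.Agent.Y184.NT.trdeg_below (K := K) htr
    have hess : Algebra.EssFiniteType ℂ K := Pool.Agent.TH466.QG.cover_ess hK
    have hessL : Algebra.EssFiniteType ℂ L := Pool.Agent.TH466.QG.ess_below (K := K)
    have hT := Pool.Agent.TH466.QG.arr_tfae hn X hF hK h hN hr
    have h34 : IsUniruled ℂ L n ↔ ¬ GeneralType ℂ L n := hT.out 2 3
    by_cases hg : GeneralType ℂ L n
    · exact viehweg_of_general hg
    · exact viehweg_of_uniruled hLtr (h34.2 hg)
  · have hess' : Algebra.EssFiniteType ℂ K' := Algebra.EssFiniteType.comp ℂ K K'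
    have hessL : Algebra.EssFiniteType ℂ L := Pool.Agent.TH466.QG.ess_below (K := K')
    exact viehweg_of_general (Pool.Agent.TH466.QG.arr_corr hn hdeg hℓ hred hx0 hbas h hN)

end Pool.Agent.Results.MP_5c318e_ag.KummerImages
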