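import Pool.Agent.Helper84.VI.Base
import Pool.Agent.N115.IM.Top

/-!
# Viehweg's inequality for the images of the varieties of the vectors whose powers are the values
of a polynomial

MP_5c318e_ag, Q1, for a class of total spaces. Let `a 0, ..., a N` be distinct complex numbers and
`m ≥ 2`. Let `X ⊆ P^N` be the `n`-dimensional complete intersection of the points `x` for which there
is a polynomial `H` of degree at most `n` such that `x i ^ m = H (a i)` for all `i`, and let `Z` be a
closed subvariety of `X`, of any dimension `w ≥ 1`, whose generic polynomial `H` is not divisible by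
the `m`-th power of a polynomial of degree at least `2` (this holds if `n < 2 m`, and for all `Z` of
codimension less than `2 (m - 1)` in `X`). Let `4 n + (n + 2 r - 1) ^ 2 < 2 (N + 1)`, and let `W` be
any smooth projective variety which is dominated by `Z` with degree at most `r`; no assumption is
made on the branch locus of `Z ⇢ W`. The theorem says that

`κ(W) ≥ κ(F) + max (κ(Y), Var (W → Y))`

for **all** fibrations `W → Y` (also of all smooth models of `W`) onto varieties `Y` with
`κ(Y) ≥ 0`. If `Z` is not ruled, then the same is proved for all `W` with generically finite dominant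
maps `Z' ⇢ Z` of any degree and `Z' ⇢ W` of degree at most `r`.

Proof. By `Pool/Agent/N115/IM/Top.lean` of the starting repository `W` is of general type or
uniruled. In the first case `κ(W) = dim W = dim F + dim Y`, and the variation is at most `dim Y`. In
the second case the general fibre of `W → Y` is uniruled or `Y` is, and then `κ(F) = -∞` or
`κ(Y) = -∞` (`Pool/Agent/R882/UB.lean` of the starting repository).
-/

set_option autoImplicit false

open Pool.Agent.W602.GT
open Pool.Agent.W619.PQ (IsUniruled)
open Pool.Agent.Helper84.VI

namespace Pool.Agent.Results.MP_5c318e_ag.PolynomialValueImages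

/-- `K` is the function field, and `y` the generic point in homogeneous coordinates, of a closed
subvariety `Z` of dimension `w` of the variety `X ⊆ P^N` of the points `x` for which there is a
polynomial of degree at most `n` whose values at the `a i` are the `x i ^ m`; the polynomial of the
generic point is `H`. -/
structure Subvariety {N : ℕ} (a : Fin (N + 1) → ℂ) (n m w : ℕ) (K : Type)
    [Field K] [Algebra ℂ K] (y : Fin (N + 1) → K) (H : Polynomial K) : Prop where
  ne : y ≠ 0
  gen : coords ℂ y = ⊤
  dim : Algebra.trdeg ℂ K = w
  deg : H.natDegree ≤ n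
  val : ∀ i, y i ^ m = H.eval (algebraMap ℂ K (a i))

/-- **Viehweg's inequality for the images of polynomial value varieties.** Let `m ≥ 2`, `r ≥ 1`,
`4 n + (n + 2 r - 1) ^ 2 < 2 (N + 1)`, and let `Z` be a closed subvariety of dimension `w ≥ 1` of
`X`, whose generic polynomial `H` is not divisible by the `m`-th power of a polynomial of degree at
least `2`. Viehweg's inequality holds for all fibrations of all varieties `W` dominated by `Z` with
degree at most `r`. If `Z` is not ruled, then it holds for all fibrations of all varieties `W` with
generically finite dominant rational maps `Z' ⇢ Z` of any degree and `Z' ⇢ W` of degree at most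
`r`. -/
theorem result {N n m r : ℕ} (hm : 2 ≤ m) (hr : 1 ≤ r)
    (hN : 4 * n + (n + 2 * r - 1) ^ 2 < 2 * (N + 1)) (a : Fin (N + 1) → ℂ)
    (ha : Function.Injective a) {K : Type} [Field K] [Algebra ℂ K] {w : ℕ} (hw : 1 ≤ w)
    {y : Fin (N + 1) → K} {H : Polynomial K} (hZ : Subvariety a n m w K y H)
    (hfac : ∀ q : Polynomial K, 2 ≤ q.natDegree → ¬ q ^ m ∣ H) :
    (∀ (L : Type) [Field L] [Algebra ℂ L] [Algebra L K] [IsScalarTower ℂ L K]
      [FiniteDimensional L K], Module.finrank L K ≤ r → Viehweg L w) ∧
    (¬ Ruled ℂ K → ∀ (K' L : Type) [Field K'] [Field L] [Algebra ℂ K'] [Algebra ℂ L]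
      [Algebra K K'] [Algebra L K'] [IsScalarTower ℂ K K'] [IsScalarTower ℂ L K']
      [FiniteDimensional K K'] [FiniteDimensional L K'], Module.finrank L K' ≤ r →
      Viehweg L w) := by
  have hess : Algebra.EssFiniteType ℂ K := essFinite hZ.gen
  refine ⟨fun L _ _ _ _ _ hfr => ?_, fun hnr K' L _ _ _ _ _ _ _ _ _ _ hfr => ?_⟩
  · have hLtr : Algebra.trdeg ℂ L = w := Pool.Agent.Y184.NT.trdeg_below (K := K) hZ.dim
    have hessL : Algebra.EssFiniteType ℂ L := Pool.Agent.TH466.QG.ess_below (K := K)
    have hT := Pool.Agent.N115.IM.below_tfae hm hr hw hN ha hZ.dim hZ.ne hZ.gen hZ.deg hZ.val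
      hfac hfr
    have h34 : IsUniruled ℂ L w ↔ ¬ GeneralType ℂ L w := hT.out 2 3
    by_cases hg : GeneralType ℂ L w
    · exact viehweg_of_general hg
    · exact viehweg_of_uniruled hLtr (h34.2 hg)
  · have hess' : Algebra.EssFiniteType ℂ K' := Algebra.EssFiniteType.comp ℂ K K'
    have hessL : Algebra.EssFiniteType ℂ L := Pool.Agent.TH466.QG.ess_below (K := K')
    exact viehweg_of_general (Pool.Agent.N115.IM.corr_general hm hr hw hN ha hZ.dim hZ.ne hZ.gen
      hZ.deg hZ.val hfac hnr hfr)

end Pool.Agent.Results.MP_5c318e_ag.PolynomialValueImages
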