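import Pool.Agent.Results.MP_97d78d_ag.ProductsOfVarieties
import Pool.Agent.R882.UC

/-!
# Viehweg's inequality for the varieties dominated by the product of several varieties and a curve

Let `V = X 0 × ... × X (k - 1) × C`, where the `X i` are smooth projective varieties over `ℂ` of
dimension `m i` and `C` is a smooth projective curve of any genus. Let `V ⇢ W` be a dominant rational
map of finite degree to a variety `W`. It need not be related to the product structure, and it need not
be the quotient by a group. Let `W_i` be the image of `V` in `W × X 0 × ... × X (i - 1)`, and let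
`d i` be the degree over `W_i` of the image of `V` in `W_i × X i`; for example `W_0 = W`, and `d 0` is
the number of different points of `X 0` below a general fibre of `V ⇢ W`. Suppose that for all `i` the
canonical forms of `X i` separate `2 d i` general points (`SeparatesPoints`), for example that `X i` is a
smooth hypersurface of degree at least `m i + 1 + 2 d i` in projective space, or a curve of gonality
greater than `2 d i`.

The theorem is about all fibrations `W → Y` (of smooth models; all dominant rational maps `W ⇢ Y` to
varieties of any dimension are allowed, and they have no relation to `V`) with generic fibre `F` and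
`κ(Y) ≥ 0`.

* If `K_F` is pseudo-effective then `κ(W) ≥ dim W - 1`.
* `κ(W) ≥ κ(F) + dim Y`, or `F` is of general type.

As `κ(Y)` and the variation `Var (W → Y)` are at most `dim Y`, the last part gives Viehweg's inequality
`κ(W) ≥ κ(F) + max (κ(Y), Var)` for all fibrations `W → Y` with `κ(Y) ≥ 0` whose fibres are not of
general type; if `F` is of general type then it is the theorem of Kollár, which is not formalised. In
both parts the inequality holds already for the dimension of the image of the canonical map of `W`,
given by `H⁰(K_W)`, instead of `κ(W)`. No good minimal model of `F` is assumed, and nothing is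
assumed about the irregularity of `W`, which may be zero.

Proof. By `MP_97d78d_ag.ProductsOfVarieties` of the starting files `W` is uniruled, or the image of the
canonical map of `W` has dimension at least `dim W - 1`. If `W` is uniruled then `κ(Y) = -∞` or `K_F`
is not pseudo-effective (`Pool/Agent/R882/UC.lean`, from `MP_5c318e_ag.CurveFibrationImages`).
-/

set_option autoImplicit false
set_option linter.overlappingInstances false
set_option maxHeartbeats 4000000
set_option synthInstance.maxHeartbeats 400000

open FF Module Pool.Agent Pool.Agent.W602.GT
open Pool.Agent.Results.MP_97d78d_ag.ProductsOfVarieties (SeparatesPoints deg CanonicalImageDimGe)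

namespace Pool.Agent.Results.MP_5c318e_ag.ProductImages

/-- The Kodaira dimension of the smooth projective varieties of dimension `n` over `k` with the
function field `K` is at least `h`. -/
def KappaGe (k K : Type) [Field k] [Field K] [Algebra k K] (n h : ℕ) : Prop :=
  KodGe k K n (fun _ => False) h

/-- The canonical divisor of the smooth projective varieties of dimension `n` over `k` with the
function field `K` is pseudo-effective. -/
def IsPseudoEffective (k K : Type) [Field k] [Field K] [Algebra k K] (n : ℕ) : Prop :=
  Psef k K n (fun _ => False)

variable {K : Type} [Field K] [Algebra ℂ K] {k : ℕ}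

/-- **Viehweg's inequality for images of products.** Let `K` be the function field of the product `V`
of the varieties with the function fields `F i`, `i < k`, of dimension `m i`, and of the curve with the
function field `F k`. Let `L ⊆ K` be the function field of a variety `W` such that the extension is
finite, and suppose that for all `i < k` the canonical forms of the `i`-th variety separate `2 d i`
general points. Let `W ⇢ Y` be a dominant rational map, given by the subfield `E` of `L`, with
`κ(Y) ≥ 0` and `d = dim Y`, and `G` its generic fibre, a variety of dimension `f'` over `E` with the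
function field `L`. If `K_G` is pseudo-effective then `κ(W) ≥ dim W - 1`. If `κ(G) ≥ q` then
`κ(W) ≥ q + dim Y`, or `q = dim G` (so `G` is of general type). In both parts the same holds for the
dimension of the image of the canonical map of `W` instead of `κ(W)`. -/
theorem result [Algebra.EssFiniteType ℂ K] (m : Fin k → ℕ)
    (F : Fin (k + 1) → IntermediateField ℂ K) [∀ i, Algebra.EssFiniteType ℂ (F i)]
    [IsFF ℂ (F (Fin.last k))] (hF : ⨆ i, F i = ⊤)
    (hm : ∀ i : Fin k, Algebra.trdeg ℂ (F i.castSucc) = m i)
    (hK : Algebra.trdeg ℂ K = (∑ i, m i + 1 : ℕ)) (L : Type) [Field L] [Algebra ℂ L]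
    [Algebra L K] [IsScalarTower ℂ L K] [FiniteDimensional L K]
    (hX : ∀ i : Fin k, SeparatesPoints (F i.castSucc) (m i) (2 * deg F L i.castSucc))
    (E : IntermediateField ℂ L) [Algebra.EssFiniteType ℂ E] {d f' : ℕ}
    (hd : Algebra.trdeg ℂ E = d) (hf' : Algebra.trdeg E L = f') (hY : KappaGe ℂ E d 0) :
    (IsPseudoEffective E L f' → KappaGe ℂ L (∑ i, m i + 1) (∑ i, m i) ∧
      CanonicalImageDimGe L (∑ i, m i + 1) (∑ i, m i)) ∧
    ∀ q : ℕ, KappaGe E L f' q → (KappaGe ℂ L (∑ i, m i + 1) (q + d) ∧
      CanonicalImageDimGe L (∑ i, m i + 1) (q + d)) ∨ q = f' := by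
  have hL : Algebra.trdeg ℂ L = (∑ i, m i + 1 : ℕ) := Pool.Agent.Y184.NT.trdeg_below (K := K) hK
  have hessL : Algebra.EssFiniteType ℂ L := Pool.Agent.TH466.QG.ess_below (K := K)
  obtain ⟨h1, h2⟩ := Pool.Agent.Results.MP_97d78d_ag.ProductsOfVarieties.result m F hF hm hK L hX
  have hdf : d + f' = ∑ i, m i + 1 := by
    have h3 := trdeg_add_eq ℂ E (A := L)
    rw [hd, hf', hL] at h3
    exact_mod_cast h3
  have hkey : IsPseudoEffective E L f' → KappaGe ℂ L (∑ i, m i + 1) (∑ i, m i) := fun h4 =>
    (h1.out 1 2).2 fun h5 => Pool.Agent.R882.UA.fib_not hL h5 E hd hf' hY h4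
  refine ⟨fun h4 => ⟨hkey h4, (h2 _).1 (hkey h4)⟩, fun q h4 => ?_⟩
  have h4' : IsPseudoEffective E L f' :=
    psef_of_kodGe (Pool.Agent.R882.UA.kod_mono h4 (Nat.zero_le _))
  have hq : q ≤ f' := Pool.Agent.R882.UA.kod_le_dim hf' h4
  by_cases hpq : q = f'
  · exact Or.inr hpq
  · left
    have h5 : KappaGe ℂ L (∑ i, m i + 1) (q + d) :=
      Pool.Agent.R882.UA.kod_mono (hkey h4') (by omega)
    exact ⟨h5, (h2 _).1 h5⟩

end Pool.Agent.Results.MP_5c318e_ag.ProductImages
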