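import Pool.Agent.Helper84.VI.Base
import Pool.Agent.R882.HTM

/-!
# Viehweg's inequality for the images of towers of coverings in tori

MP_5c318e_ag, Q1, for a class of total spaces. Let `V 0 ⇢ V 1 ⇢ ... ⇢ V k` be a tower (`Tower`,
`Pool/Agent/R882/HT.lean`) of varieties of dimension `n ≥ 1`: each `V i`, `i < k`, is a component of
a nondegenerate complete intersection in a torus, of any codimension, `V (i + 1)` is its image under
a monomial map such that the function field of `V i` is generated over that of `V (i + 1)` by a
monomial, and the Fine interior of the Minkowski sum of the Newton polytopes of `V i` contains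
columns of the lengths `c`, for the divisors `c < b i` of the degree `b i` of `V i` over `V (i + 1)`,
with the width `M` in the directions of the monomials which define `V (i + 1)`, where
`s i ≤ c (M + 1)`, `s i = s / (b 0 ⋯ b (i - 1))`. The last variety `V k` is either any uniruled
variety, or any variety such that Viehweg's inequality holds for all fibrations of all varieties
which are dominated by `V k` with finite degree.

Let `V 0 ⇢ W` be any dominant rational map of finite degree `r`; nothing else is assumed about it (it
may be ramified arbitrarily and has no relation to the tower) or about `W`. The theorem says that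

`κ(W) ≥ κ(F) + max (κ(Y), Var (W → Y))`

for **all** fibrations `W → Y` onto varieties `Y` with `κ(Y) ≥ 0`, if the above holds for `s = 2 r`,
or if it holds for `s = r` and the geometric genus of `W` is zero.

Proof. By `Pool/Agent/R882/HT.lean` of the starting repository `W` is of general type or is dominated
by `V k`. In the first case `κ(W) = dim W = dim F + dim Y`, and the variation is at most `dim Y`. In
the second case Viehweg's inequality is known for `W`, or `W` is uniruled, and then the general
fibre of `W → Y` is uniruled or `Y` is, so `κ(F) = -∞` or `κ(Y) = -∞` (`Pool/Agent/R882/UB.lean` of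
the starting repository).
-/

set_option autoImplicit false

open Pool.Agent.W602.GT
open Pool.Agent.W619.PQ (IsUniruled)
open Pool.Agent.R882.HT (Tower GenusZero Descends descends_uniruled)
open Pool.Agent.Helper84.VI

namespace Pool.Agent.Results.MP_5c318e_ag.TowersOfCoverings

/-- Viehweg's inequality holds for all fibrations of all the varieties which are dominated, with
finite degree, by the varieties of dimension `n` with the function field `K`. -/
def ImagesViehweg (n : ℕ) (K : Type) [Field K] [Algebra ℂ K] : Prop :=
  ∀ (L : Type) [Field L] [Algebra ℂ L] [Algebra L K] [IsScalarTower ℂ L K]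
    [FiniteDimensional L K], Viehweg L n

/-- The condition on the last variety of the tower. -/
def Base (n : ℕ) (K : Type) [Field K] [Algebra ℂ K] : Prop :=
  IsUniruled ℂ K n ∨ ImagesViehweg n K

theorem descends (n : ℕ) : Descends (fun K _ _ => Base n K) := by
  intro K _ _ L _ _ _ _ _ h
  rcases h with h | h
  · exact Or.inl (descends_uniruled n K L h)
  · refine Or.inr fun L' _ _ _ _ _ => ?_
    let _ : Algebra L' K := ((algebraMap L K).comp (algebraMap L' L)).toAlgebra
    have : IsScalarTower L' L K := IsScalarTower.of_algebraMap_eq fun _ => rfl
    have : IsScalarTower ℂ L' K := by
      refine IsScalarTower.of_algebraMap_eq fun c => ?_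
      change algebraMap ℂ K c = algebraMap L K (algebraMap L' L (algebraMap ℂ L' c))
      rw [← IsScalarTower.algebraMap_apply ℂ L' L, ← IsScalarTower.algebraMap_apply ℂ L K]
    have : FiniteDimensional L' K := FiniteDimensional.trans L' L K
    exact h L'

/-- **Viehweg's inequality for the images of towers.** Let `K` be the function field of the first
variety `V` of a tower of coverings of dimension `n ≥ 1` in tori, over a uniruled variety or over a
variety whose images satisfy Viehweg's inequality, and let `V ⇢ W` be a dominant rational map of
finite degree `r`, and `L` the function field of `W`. If the tower has columns for `2 r`, then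
Viehweg's inequality holds for all fibrations of `W`. If it has columns for `r`, then this holds if
`W` has the geometric genus zero. -/
theorem result {n : ℕ} (hn : 1 ≤ n) {K : Type} [Field K] [Algebra ℂ K]
    [Algebra.EssFiniteType ℂ K] (hK : Algebra.trdeg ℂ K = (n : ℕ))
    (L : Type) [Field L] [Algebra ℂ L] [Algebra L K] [IsScalarTower ℂ L K]
    [FiniteDimensional L K] :
    (Tower n (fun K _ _ => Base n K) K (2 * Module.finrank L K) → Viehweg L n) ∧
    (Tower n (fun K _ _ => Base n K) K (Module.finrank L K) → GenusZero L n → Viehweg L n) := by
  have hessL : Algebra.EssFiniteType ℂ L := Pool.Agent.TH466.QG.ess_below (K := K)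
  have hL : Algebra.trdeg ℂ L = (n : ℕ) := Pool.Agent.Y184.NT.trdeg_below (K := K) hK
  have hbase : Base n L → Viehweg L n := by
    rintro (h | h)
    · exact viehweg_of_uniruled hL h
    · let _ : Algebra L L := Algebra.id L
      exact h L
  refine ⟨fun h => ?_, fun h hg => ?_⟩
  · rcases Pool.Agent.R882.HT.dichotomy hn (descends n) hK L h with h | h
    · exact viehweg_of_general h
    · exact hbase h
  · exact hbase ((Pool.Agent.R882.HT.tower_aux hn (descends n) h hK L).1 rfl hg)

end Pool.Agent.Results.MP_5c318e_ag.TowersOfCoverings
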